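import Pool.Agent.Helper33.Pak.Towers
import Pool.Agent.Helper63.Pak.RARat
import Pool.Agent.Helper99.Pak.Exc
import Pool.Agent.Helper43.Pak.ChainLemma

/-! Piece END: common iterates and existence of towers. -/

set_option linter.unusedSectionVars false

namespace Pool.Agent.Helper63.Pak

open IntermediateField

variable {Ω : Type} [Field Ω] [Algebra ℂ Ω] [CurveUniverse Ω]
variable {A B : RatFunc ℂ} {x x' y : ℤ → Ω}

/-! ### From finite levels to towers -/

theorem END_exists_aut (hA : 1 ≤ rdeg A) {t t' : Ω} (ht : Transcendental ℂ t)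
    (ht' : Transcendental ℂ t') : ∃ g : Ω ≃ₐ[ℂ] Ω, g t = t' := by
  obtain ⟨z, hz, hz0⟩ := exists_tower hA ht
  obtain ⟨z', hz', hz0'⟩ := exists_tower hA ht'
  obtain ⟨g, hg⟩ := Tower.exists_conj hA hz hz'
  exact ⟨g, by rw [← hz0, hg, hz0']⟩

theorem END_rdeg_iter_pos (hA : 1 ≤ rdeg A) (n : ℕ) : 1 ≤ rdeg (iter A n) := by
  rw [rdeg_iter]
  exact Nat.one_le_pow _ _ hA

theorem END_tower_of_nat (hA : 1 ≤ rdeg A) (a : ℕ → Ω) (ha : ∀ n, Transcendental ℂ (a n))
    (hstep : ∀ n, ev A (a (n + 1)) = a n) :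
    ∃ x : ℤ → Ω, Tower A x ∧ ∀ n : ℕ, x n = a n := by
  have hneg : ∀ n : ℕ, Transcendental ℂ ((ev A)^[n] (a 0)) := by
    intro n
    induction n with
    | zero => exact ha 0
    | succ n ih =>
      rw [Function.iterate_succ_apply']
      exact transcendental_ev ih hA
  refine ⟨fun n => match n with
    | Int.ofNat n => a n
    | Int.negSucc n => (ev A)^[n + 1] (a 0), ⟨?_, ?_⟩, fun n => rfl⟩
  · intro n
    match n with
    | Int.ofNat n => exact ha n
    | Int.negSucc n => exact hneg (n + 1)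
  · intro n
    match n with
    | Int.ofNat n => exact hstep n
    | Int.negSucc 0 => rfl
    | Int.negSucc (n + 1) =>
      have h1 : (Int.negSucc (n + 1) + 1 : ℤ) = Int.negSucc n := rfl
      simp only [h1]
      exact (Function.iterate_succ_apply' (ev A) (n + 1) (a 0)).symm

/-- The finite levels. -/
def ENDLevel (A B : RatFunc ℂ) (t : Ω) (n : ℕ) : Set (Ω × Ω) :=
  {p | ev (iter A n) p.1 = t ∧ ev (iter B n) p.2 = t ∧ 0 ≤ chi (ℂ⟮p.1⟯ ⊔ ℂ⟮p.2⟯)}

theorem ENDLevel.trans1 {t : Ω} (ht : Transcendental ℂ t) {n : ℕ} {p : Ω × Ω}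
    (hp : p ∈ ENDLevel A B t n) : Transcendental ℂ p.1 := transcendental_of_ev ht hp.1

theorem ENDLevel.trans2 {t : Ω} (ht : Transcendental ℂ t) {n : ℕ} {p : Ω × Ω}
    (hp : p ∈ ENDLevel A B t n) : Transcendental ℂ p.2 := transcendental_of_ev ht hp.2.1

/-- The transition map. -/
noncomputable def endF (A B : RatFunc ℂ) (p : Ω × Ω) : Ω × Ω := (ev A p.1, ev B p.2)

theorem ENDLevel.step (hPT : PTFacts Ω) (hA : 1 ≤ rdeg A) (hB : 1 ≤ rdeg B) {t : Ω}
    (ht : Transcendental ℂ t) {n : ℕ} {p : Ω × Ω} (hp : p ∈ ENDLevel A B t (n + 1)) :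
    endF A B p ∈ ENDLevel A B t n := by
  have h1 := ENDLevel.trans1 ht hp
  have h2 := ENDLevel.trans2 ht hp
  obtain ⟨e1, e2, hc⟩ := hp
  rw [ev_iter h1 hA, Function.iterate_succ_apply] at e1
  rw [ev_iter h2 hB, Function.iterate_succ_apply] at e2
  have h1' : Transcendental ℂ (ev A p.1) := transcendental_ev h1 hA
  have h2' : Transcendental ℂ (ev B p.2) := transcendental_ev h2 hB
  refine ⟨?_, ?_, ?_⟩
  · rw [endF, ev_iter h1' hA]; exact e1
  · rw [endF, ev_iter h2' hB]; exact e2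
  · refine chi_nonneg_of_le hPT (FF.sup (ff_adjoin h1') (ff_adjoin h2'))
      (FF.sup (ff_adjoin h1) (ff_adjoin h2)) ?_ hc
    refine sup_le_sup ?_ ?_
    · rw [adjoin_simple_le_iff]
      exact ev_mem (mem_adjoin_simple_self ℂ _)
    · rw [adjoin_simple_le_iff]
      exact ev_mem (mem_adjoin_simple_self ℂ _)

theorem ENDLevel.iterate (hPT : PTFacts Ω) (hA : 1 ≤ rdeg A) (hB : 1 ≤ rdeg B) {t : Ω}
    (ht : Transcendental ℂ t) (k : ℕ) {n : ℕ} {p : Ω × Ω} (hp : p ∈ ENDLevel A B t (n + k)) :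
    (endF A B)^[k] p ∈ ENDLevel A B t n := by
  induction k generalizing p with
  | zero => exact hp
  | succ k ih =>
    rw [Function.iterate_succ_apply]
    exact ih (ENDLevel.step hPT hA hB ht hp)

theorem ENDLevel.finite (hA : 1 ≤ rdeg A) (hB : 1 ≤ rdeg B) {t : Ω}
    (ht : Transcendental ℂ t) (n : ℕ) : (ENDLevel A B t n).Finite := by
  refine ((finite_ev_eq ht (END_rdeg_iter_pos hA n)).prod
    (finite_ev_eq ht (END_rdeg_iter_pos hB n))).subset ?_
  rintro p ⟨h1, h2, -⟩
  exact ⟨h1, h2⟩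

theorem END_map_sup (g : Ω ≃ₐ[ℂ] Ω) (a b : Ω) :
    mapF g (ℂ⟮a⟯ ⊔ ℂ⟮b⟯) = ℂ⟮g a⟯ ⊔ ℂ⟮g b⟯ := by
  rw [mapF, IntermediateField.map_sup, IntermediateField.adjoin_map,
    IntermediateField.adjoin_map, Set.image_singleton, Set.image_singleton]
  rfl

theorem exists_towers (hPT : PTFacts Ω) (hA : 2 ≤ rdeg A) (hB : 2 ≤ rdeg B)
    (h : ∀ n m : ℕ, 1 ≤ n → 1 ≤ m → ∃ a b : Ω, Transcendental ℂ a ∧ Transcendental ℂ b ∧
      ev (iter A n) a = ev (iter B m) b ∧ 0 ≤ chi (ℂ⟮a⟯ ⊔ ℂ⟮b⟯)) :
    ∃ x y : ℤ → Ω, Tower A x ∧ Tower B y ∧ x 0 = y 0 ∧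
      ∀ n m : ℕ, 0 ≤ chi (Cx x n ⊔ Cx y m) := by
  have hA1 : 1 ≤ rdeg A := by omega
  have hB1 : 1 ≤ rdeg B := by omega
  obtain ⟨t, -, ht, -, -, -⟩ := h 1 1 le_rfl le_rfl
  have hne : ∀ n, (ENDLevel A B t n).Nonempty := by
    intro n
    rcases Nat.eq_zero_or_pos n with rfl | hn
    · refine ⟨(t, t), ?_, ?_, ?_⟩
      · exact ev_X t
      · exact ev_X t
      · simp only [sup_idem]
        rw [hPT.chi_adjoin ht]
        norm_num
    · obtain ⟨a, b, ha, hb, hab, hc⟩ := h n n hn hn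
      obtain ⟨g, hg⟩ := END_exists_aut hA1
        (transcendental_ev ha (END_rdeg_iter_pos hA1 n)) ht
      refine ⟨(g a, g b), ?_, ?_, ?_⟩
      · change ev (iter A n) (g a) = t
        rw [← ev_map, hg]
      · change ev (iter B n) (g b) = t
        rw [← ev_map, ← hab, hg]
      · change 0 ≤ chi (ℂ⟮g a⟯ ⊔ ℂ⟮g b⟯)
        rw [← END_map_sup, hPT.chi_map g (FF.sup (ff_adjoin ha) (ff_adjoin hb))]
        exact hc
  have hfin := fun n => ENDLevel.finite (A := A) (B := B) hA1 hB1 ht n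
  have : ∀ n, Finite (ENDLevel A B t n) := fun n => (hfin n).to_subtype
  have : ∀ n, Nonempty (ENDLevel A B t n) := fun n => (hne n).to_subtype
  obtain ⟨F, hF⟩ := exists_seq_forall_proj_of_forall_finite
    (α := fun n => ENDLevel A B t n)
    (fun {i j} hij p => ⟨(endF A B)^[j - i] p.1, ENDLevel.iterate hPT hA1 hB1 ht (j - i) (by
      rw [Nat.add_sub_cancel' hij]; exact p.2)⟩)
    (by
      intro i a
      apply Subtype.ext
      simp)
    (by
      intro i j k hij hjk a
      apply Subtype.ext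
      simp only
      rw [← Function.iterate_add_apply]
      congr 2
      omega)
    (fun i a => Set.toFinite _)
  have hstep : ∀ n, endF A B (F (n + 1)).1 = (F n).1 := by
    intro n
    have := congrArg Subtype.val (hF (Nat.le_succ n))
    simpa using this
  obtain ⟨x, hx, hx0⟩ := END_tower_of_nat hA1 (fun n => (F n).1.1)
    (fun n => ENDLevel.trans1 ht (F n).2) (fun n => congrArg Prod.fst (hstep n))
  obtain ⟨y, hy, hy0⟩ := END_tower_of_nat hB1 (fun n => (F n).1.2)
    (fun n => ENDLevel.trans2 ht (F n).2) (fun n => congrArg Prod.snd (hstep n))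
  refine ⟨x, y, hx, hy, ?_, ?_⟩
  · have e1 := hx0 0
    have e2 := hy0 0
    have h0 := (F 0).2
    have f1 : (F 0).1.1 = t := by
      have := h0.1
      rwa [show iter A 0 = RatFunc.X from rfl, ev_X] at this
    have f2 : (F 0).1.2 = t := by
      have := h0.2.1
      rwa [show iter B 0 = RatFunc.X from rfl, ev_X] at this
    simp only [Nat.cast_zero] at e1 e2
    rw [e1, e2, f1, f2]
  · intro n m
    refine chi_nonneg_of_le hPT (FF.sup (hx.ff _) (hy.ff _))
      (FF.sup (hx.ff (max n m : ℕ)) (hy.ff (max n m : ℕ))) ?_ ?_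
    · exact sup_le_sup (hx.le' (by exact_mod_cast le_max_left n m))
        (hy.le' (by exact_mod_cast le_max_right n m))
    · rw [Cx, Cx, hx0, hy0]
      exact (F (max n m)).2.2.2

/-! ### Totally invariant pairs -/

theorem END_valuation_ne_one_iff (hPT : PTFacts Ω) (v : Pt Ω) (z : Ω) :
    (val v z = ((0 : ℂ) : OnePoint ℂ) ∨ val v z = OnePoint.infty) ↔ v.ring.valuation z ≠ 1 := by
  have h0 : val v z = ((0 : ℂ) : OnePoint ℂ) ↔ v.ring.valuation z < 1 := by
    rw [hPT.val_eq_coe_iff, map_zero, sub_zero]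
  have h1 : val v z = OnePoint.infty ↔ ¬ v.ring.valuation z ≤ 1 := by
    rw [ValuationSubring.valuation_le_one_iff, hPT.mem_ring_iff, not_not]
  rw [h0, h1, not_le]
  exact ne_iff_lt_or_gt.symm

theorem END_den_ne {t : Ω} (ht : Transcendental ℂ t) (z : RatFunc ℂ) :
    Polynomial.eval₂ (algebraMap ℂ Ω) t z.denom ≠ 0 := by
  intro h
  exact ht ⟨z.denom, z.denom_ne_zero, h⟩

theorem END_ev_mul {t : Ω} (ht : Transcendental ℂ t) (z w : RatFunc ℂ) :
    ev (z * w) t = ev z t * ev w t :=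
  RatFunc.eval_mul _ _ (END_den_ne ht z) (END_den_ne ht w)

theorem END_ev_pow {t : Ω} (ht : Transcendental ℂ t) (z : RatFunc ℂ) (n : ℕ) :
    ev (z ^ n) t = ev z t ^ n := by
  induction n with
  | zero => rw [pow_zero, pow_zero]; exact RatFunc.eval_one (algebraMap ℂ Ω) t
  | succ n ih => rw [pow_succ, pow_succ, END_ev_mul ht, ih]

theorem END_ev_inv {t : Ω} (ht : Transcendental ℂ t) {z : RatFunc ℂ} (hz : z ≠ 0) :
    ev z⁻¹ t = (ev z t)⁻¹ := by
  have h1 : ev (z⁻¹ * z) t = 1 := by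
    rw [inv_mul_cancel₀ hz]; exact RatFunc.eval_one (algebraMap ℂ Ω) t
  rw [END_ev_mul ht] at h1
  exact eq_inv_of_mul_eq_one_left h1

theorem END_pow_eq_one {Γ : Type*} [LinearOrderedCommGroupWithZero Γ] (z : Γ) {d : ℕ}
    (hd : d ≠ 0) : z ^ d = 1 ↔ z = 1 :=
  pow_eq_one_iff_of_nonneg zero_le hd

theorem END_pmap_pair (hPT : PTFacts Ω) {B' : RatFunc ℂ} {d : ℕ} (hd : 1 ≤ d)
    (hB' : B' = RatFunc.X ^ d ∨ B' = (RatFunc.X ^ d)⁻¹) {t : Ω} (ht : Transcendental ℂ t) :
    pmap B' ⁻¹' {((0 : ℂ) : OnePoint ℂ), OnePoint.infty} =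
      {((0 : ℂ) : OnePoint ℂ), OnePoint.infty} := by
  ext p
  obtain ⟨v, rfl⟩ := hPT.exists_val ht p
  rw [Set.mem_preimage, ← hPT.val_ev v B' ht]
  simp only [Set.mem_insert_iff, Set.mem_singleton_iff]
  rw [END_valuation_ne_one_iff hPT, END_valuation_ne_one_iff hPT]
  have hX : ev (RatFunc.X ^ d) t = t ^ d := by
    rw [END_ev_pow ht, ev_X]
  have hX' : ev (RatFunc.X ^ d)⁻¹ t = (t ^ d)⁻¹ := by
    rw [END_ev_inv ht (pow_ne_zero _ RatFunc.X_ne_zero), hX]
  have hd0 : d ≠ 0 := by omega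
  rcases hB' with rfl | rfl
  · rw [hX, map_pow, ne_eq, END_pow_eq_one _ hd0]
  · rw [hX', map_inv₀, map_pow, ne_eq, inv_eq_one, END_pow_eq_one _ hd0]

theorem END_locDeg_one (hPT : PTFacts Ω) {μ : RatFunc ℂ} (hμ : rdeg μ = 1) (q : OnePoint ℂ) :
    locDeg μ q = 1 := by
  have h1 : 1 ≤ rdeg μ := hμ.ge
  have hrh := riemann_hurwitz hPT h1
  rw [hμ] at hrh
  by_contra hq
  have hpos := locDeg_pos hPT h1 q
  have hsub : (Function.support fun q => locDeg μ q - 1) ⊆ {q | locDeg μ q ≠ 1} := by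
    intro p hp hp1
    apply hp
    simp only [hp1, Nat.sub_self]
  have hfin : (Function.support fun q => locDeg μ q - 1).Finite := (crit_finite hPT h1).subset hsub
  have h2 : locDeg μ q - 1 ≤ ∑ᶠ q, (locDeg μ q - 1) :=
    single_le_finsum q hfin (fun _ => Nat.zero_le _)
  omega

theorem END_fibre_sum (hPT : PTFacts Ω) (hA : 1 ≤ rdeg A) (p : OnePoint ℂ) :
    ∑ q ∈ (fibre_finite hPT hA p).toFinset, locDeg A q = rdeg A := by
  rw [← finsum_mem_eq_finite_toFinset_sum]
  exact sum_fibre hPT hA p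

theorem END_pmap_injective (hPT : PTFacts Ω) {μ : RatFunc ℂ} (hμ : rdeg μ = 1) :
    Function.Injective (pmap μ) := by
  intro a b hab
  have hs := (END_fibre_sum hPT hμ.ge (pmap μ b)).trans hμ
  rw [Finset.sum_congr rfl (fun q _ => END_locDeg_one hPT hμ q), Finset.sum_const,
    smul_eq_mul, mul_one] at hs
  refine Finset.card_le_one.1 hs.le a ?_ b ?_
  · rw [Set.Finite.mem_toFinset]; exact hab
  · rw [Set.Finite.mem_toFinset]; exact rfl

theorem END_pair_of_isPow (hPT : PTFacts Ω) {t : Ω} (ht : Transcendental ℂ t)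
    (hB : 2 ≤ rdeg B) (h : IsPow B) :
    ∃ a b : OnePoint ℂ, a ≠ b ∧ pmap B ⁻¹' {a, b} = {a, b} := by
  have key : ∀ B' : RatFunc ℂ, (B' = RatFunc.X ^ rdeg B ∨ B' = (RatFunc.X ^ rdeg B)⁻¹) →
      MobConj B B' → ∃ a b : OnePoint ℂ, a ≠ b ∧ pmap B ⁻¹' {a, b} = {a, b} := by
    rintro B' hB' ⟨μ, hμ, hc⟩
    have hpair := END_pmap_pair hPT (by omega) hB' ht
    obtain ⟨a, ha⟩ := pmap_surjective hPT hμ.ge ((0 : ℂ) : OnePoint ℂ)
    obtain ⟨b, hb⟩ := pmap_surjective hPT hμ.ge (OnePoint.infty : OnePoint ℂ)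
    have hinj := END_pmap_injective hPT hμ
    have hT : ∀ q, q ∈ ({a, b} : Set (OnePoint ℂ)) ↔
        pmap μ q ∈ ({((0 : ℂ) : OnePoint ℂ), OnePoint.infty} : Set (OnePoint ℂ)) := by
      intro q
      simp only [Set.mem_insert_iff, Set.mem_singleton_iff]
      rw [← ha, ← hb, hinj.eq_iff, hinj.eq_iff]
    refine ⟨a, b, ?_, ?_⟩
    · rintro rfl
      rw [ha] at hb
      exact OnePoint.coe_ne_infty _ hb
    · ext q
      rw [Set.mem_preimage, hT, hT, ← pmap_comp hPT (by omega), hc, pmap_comp hPT hμ.ge]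
      exact Set.ext_iff.1 hpair (pmap μ q)
  rcases h with h | h
  · exact key _ (Or.inl rfl) h
  · exact key _ (Or.inr rfl) h

/-- If every critical value of `A` lies in the pair `{a, b}` then the fibres over `a` and `b` are
single points, totally ramified. -/
theorem END_fibres_of_crit (hPT : PTFacts Ω) (hA : 2 ≤ rdeg A) {a b : OnePoint ℂ}
    (h : ∀ q, locDeg A q ≠ 1 → pmap A q ∈ ({a, b} : Set (OnePoint ℂ))) :
    a ≠ b ∧ ∃ a' b', pmap A ⁻¹' {a} = {a'} ∧ pmap A ⁻¹' {b} = {b'} ∧ locDeg A a' ≠ 1 ∧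
      locDeg A b' ≠ 1 := by
  classical
  have hA1 : 1 ≤ rdeg A := by omega
  have hrh := riemann_hurwitz hPT hA1
  set Fa := (fibre_finite hPT hA1 a).toFinset with hFa
  set Fb := (fibre_finite hPT hA1 b).toFinset with hFb
  have hsa : ∑ q ∈ Fa, locDeg A q = rdeg A := END_fibre_sum hPT hA1 a
  have hsb : ∑ q ∈ Fb, locDeg A q = rdeg A := END_fibre_sum hPT hA1 b
  have hpos := locDeg_pos hPT hA1
  have hcard : ∀ F : Finset (OnePoint ℂ), ∑ q ∈ F, locDeg A q =
      ∑ q ∈ F, (locDeg A q - 1) + F.card := by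
    intro F
    rw [Finset.card_eq_sum_ones, ← Finset.sum_add_distrib]
    refine Finset.sum_congr rfl (fun q _ => ?_)
    have := hpos q
    omega
  have hsupp : (Function.support fun q => locDeg A q - 1) ⊆ ((Fa ∪ Fb : Finset (OnePoint ℂ)) :
      Set (OnePoint ℂ)) := by
    intro q hq
    have hq1 : locDeg A q ≠ 1 := by
      intro h1
      apply hq
      simp only [h1, Nat.sub_self]
    have := h q hq1
    simp only [Finset.coe_union, Set.mem_union, Finset.mem_coe, hFa, hFb,
      Set.Finite.mem_toFinset]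
    rcases this with h1 | h1
    · left; exact h1
    · right; exact h1
  rw [finsum_eq_sum_of_support_subset _ hsupp] at hrh
  have hne_a : Fa.Nonempty := by
    obtain ⟨z, hz⟩ := pmap_surjective hPT hA1 a
    exact ⟨z, by rw [hFa, Set.Finite.mem_toFinset]; exact hz⟩
  have hne_b : Fb.Nonempty := by
    obtain ⟨z, hz⟩ := pmap_surjective hPT hA1 b
    exact ⟨z, by rw [hFb, Set.Finite.mem_toFinset]; exact hz⟩
  have hca := hcard Fa
  have hcb := hcard Fb
  have hpa := hne_a.card_pos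
  have hpb := hne_b.card_pos
  have hab : a ≠ b := by
    rintro rfl
    have he : Fb = Fa := hFb.trans hFa.symm
    rw [he, Finset.union_idempotent] at hrh
    omega
  have hle : ∑ q ∈ Fa ∪ Fb, (locDeg A q - 1) ≤ ∑ q ∈ Fa, (locDeg A q - 1) +
      ∑ q ∈ Fb, (locDeg A q - 1) := by
    have := Finset.sum_union_inter (s₁ := Fa) (s₂ := Fb) (f := fun q => locDeg A q - 1)
    omega
  have ha1 : Fa.card = 1 := by omega
  have hb1 : Fb.card = 1 := by omega
  obtain ⟨a', ha'⟩ := Finset.card_eq_one.1 ha1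
  obtain ⟨b', hb'⟩ := Finset.card_eq_one.1 hb1
  have e1 : pmap A ⁻¹' {a} = {a'} := by
    ext q
    have : q ∈ Fa ↔ q = a' := by rw [ha', Finset.mem_singleton]
    rw [hFa, Set.Finite.mem_toFinset] at this
    exact this
  have e2 : pmap A ⁻¹' {b} = {b'} := by
    ext q
    have : q ∈ Fb ↔ q = b' := by rw [hb', Finset.mem_singleton]
    rw [hFb, Set.Finite.mem_toFinset] at this
    exact this
  refine ⟨hab, a', b', e1, e2, ?_, ?_⟩
  · rw [ha', Finset.sum_singleton] at hsa
    omega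
  · rw [hb', Finset.sum_singleton] at hsb
    omega

/-- If the critical values of `A ∘ A` lie in a pair then `A` is a power map. -/
theorem END_isPow_of_crit2 (hPT : PTFacts Ω) (hA : 2 ≤ rdeg A) {a b : OnePoint ℂ}
    (h : ∀ q, locDeg (iter A 2) q ≠ 1 → pmap (iter A 2) q ∈ ({a, b} : Set (OnePoint ℂ))) :
    IsPow A := by
  have hA1 : 1 ≤ rdeg A := by omega
  have hp2 : ∀ q, pmap (iter A 2) q = pmap A (pmap A q) := by
    intro q
    rw [pmap_iter hPT hA1]
    rfl
  have hl2 : ∀ q, locDeg (iter A 2) q = locDeg A q * locDeg A (pmap A q) := by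
    intro q
    rw [locDeg_iter hPT hA1, locIter, Finset.prod_range_succ, Finset.prod_range_one]
    rfl
  have h2 : ∀ q, locDeg A q ≠ 1 → pmap A (pmap A q) ∈ ({a, b} : Set (OnePoint ℂ)) := by
    intro q hq
    rw [← hp2]
    apply h
    rw [hl2]
    intro h1
    exact hq (Nat.eq_one_of_mul_eq_one_right h1)
  have h1 : ∀ q, locDeg A q ≠ 1 → pmap A q ∈ ({a, b} : Set (OnePoint ℂ)) := by
    intro q hq
    obtain ⟨z, rfl⟩ := pmap_surjective hPT hA1 q
    rw [← hp2]
    apply h
    rw [hl2]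
    intro h1
    exact hq (Nat.eq_one_of_mul_eq_one_left h1)
  obtain ⟨hab, a', b', ea, eb, la, lb⟩ := END_fibres_of_crit hPT hA h1
  have pa' : pmap A a' = a := by
    have : a' ∈ pmap A ⁻¹' {a} := by rw [ea]; rfl
    exact this
  have pb' : pmap A b' = b := by
    have : b' ∈ pmap A ⁻¹' {b} := by rw [eb]; rfl
    exact this
  have ma := h2 a' la
  have mb := h2 b' lb
  rw [pa'] at ma
  rw [pb'] at mb
  have hpre : pmap A ⁻¹' {a, b} = {a', b'} := by
    rw [Set.insert_eq, Set.preimage_union, ea, eb, ← Set.insert_eq]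
  have ma' : a ∈ ({a', b'} : Set (OnePoint ℂ)) := by
    rw [← hpre]; exact ma
  have mb' : b ∈ ({a', b'} : Set (OnePoint ℂ)) := by
    rw [← hpre]; exact mb
  have heq : ({a, b} : Set (OnePoint ℂ)) = {a', b'} := by
    rcases ma' with rfl | h3
    · rcases mb' with rfl | h4
      · exact absurd rfl hab
      · rw [Set.mem_singleton_iff] at h4
        rw [h4]
    · rw [Set.mem_singleton_iff] at h3
      subst h3
      rcases mb' with rfl | h4
      · exact Set.pair_comm _ _
      · rw [Set.mem_singleton_iff] at h4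
        exact absurd h4.symm hab
  exact isPow_of_pair hPT hA hab (by rw [hpre, heq])

/-- A totally invariant pair contains all critical values of all iterates. -/
theorem END_crit_iter (hPT : PTFacts Ω) (hB : 2 ≤ rdeg B) {a b : OnePoint ℂ} (hab : a ≠ b)
    (h : pmap B ⁻¹' {a, b} = {a, b}) (m : ℕ) (q : OnePoint ℂ) (hq : locDeg (iter B m) q ≠ 1) :
    pmap (iter B m) q ∈ ({a, b} : Set (OnePoint ℂ)) := by
  classical
  have hB1 : 1 ≤ rdeg B := by omega
  have hinv : ∀ q, pmap B q ∈ ({a, b} : Set (OnePoint ℂ)) ↔ q ∈ ({a, b} : Set (OnePoint ℂ)) := by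
    intro q
    exact Set.ext_iff.1 h q
  -- all critical points lie in the pair
  have hcrit : ∀ q, locDeg B q ≠ 1 → q ∈ ({a, b} : Set (OnePoint ℂ)) := by
    have hrh := riemann_hurwitz hPT hB1
    have hpos := locDeg_pos hPT hB1
    have hfin := (crit_finite hPT hB1)
    intro q hq
    by_contra hqn
    -- the sum over the pair
    have hsub : (Function.support fun q => locDeg B q - 1) ⊆ (hfin.toFinset : Set (OnePoint ℂ)) := by
      intro p hp
      rw [Finset.mem_coe, Set.Finite.mem_toFinset]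
      intro hp1
      apply hp
      simp only [hp1, Nat.sub_self]
    have hsub' : (Function.support fun q => locDeg B q - 1) ⊆
        ((hfin.toFinset ∪ {a, b} : Finset (OnePoint ℂ)) : Set (OnePoint ℂ)) := by
      intro p hp
      rw [Finset.coe_union]
      exact Or.inl (hsub hp)
    rw [finsum_eq_sum_of_support_subset _ hsub'] at hrh
    -- the fibres over a and b
    have hsa := END_fibre_sum hPT hB1 a
    have hsb := END_fibre_sum hPT hB1 b
    set Fa := (fibre_finite hPT hB1 a).toFinset with hFa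
    set Fb := (fibre_finite hPT hB1 b).toFinset with hFb
    have hdisj : Disjoint Fa Fb := by
      rw [Finset.disjoint_left]
      intro z hz hz'
      rw [hFa, Set.Finite.mem_toFinset] at hz
      rw [hFb, Set.Finite.mem_toFinset] at hz'
      exact hab (hz.symm.trans hz')
    have hun : Fa ∪ Fb = {a, b} := by
      ext z
      rw [Finset.mem_union, hFa, hFb, Set.Finite.mem_toFinset, Set.Finite.mem_toFinset,
        Finset.mem_insert, Finset.mem_singleton]
      exact hinv z
    have hsum : ∑ q ∈ ({a, b} : Finset (OnePoint ℂ)), locDeg B q = 2 * rdeg B := by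
      rw [← hun, Finset.sum_union hdisj, hsa, hsb, two_mul]
    have hsum' : ∑ q ∈ ({a, b} : Finset (OnePoint ℂ)), (locDeg B q - 1) = 2 * rdeg B - 2 := by
      rw [Finset.sum_pair hab] at hsum ⊢
      have := hpos a
      have := hpos b
      omega
    have hlt : ∑ q ∈ ({a, b} : Finset (OnePoint ℂ)), (locDeg B q - 1) <
        ∑ q ∈ hfin.toFinset ∪ {a, b}, (locDeg B q - 1) := by
      refine Finset.sum_lt_sum_of_subset Finset.subset_union_right (i := q) ?_ ?_ ?_ ?_
      · rw [Finset.mem_union, Set.Finite.mem_toFinset]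
        exact Or.inl hq
      · intro hq2
        apply hqn
        simpa using hq2
      · have := hpos q
        omega
      · intro j _ _
        exact Nat.zero_le _
    omega
  have hiter : ∀ (k : ℕ) (q : OnePoint ℂ), (pmap B)^[k] q ∈ ({a, b} : Set (OnePoint ℂ)) ↔
      q ∈ ({a, b} : Set (OnePoint ℂ)) := by
    intro k
    induction k with
    | zero => intro q; exact Iff.rfl
    | succ k ih =>
      intro q
      rw [Function.iterate_succ_apply, ih, hinv]
  rw [pmap_iter hPT hB1, hiter]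
  rw [locDeg_iter hPT hB1, locIter] at hq
  have : ∃ i ∈ Finset.range m, locDeg B ((pmap B)^[i] q) ≠ 1 := by
    by_contra hcon
    push Not at hcon
    exact hq (Finset.prod_eq_one hcon)
  obtain ⟨i, -, hi⟩ := this
  exact (hiter i q).1 (hcrit _ hi)

/-! ### Common iterates -/

theorem Tower.END_iterate (hx : Tower A x) (j : ℕ) (n : ℤ) : (ev A)^[j] (x (n + j)) = x n := by
  induction j generalizing n with
  | zero => simp
  | succ j ih =>
    rw [Function.iterate_succ_apply]
    have h1 : x (n + (j + 1 : ℕ)) = x ((n + j) + 1) := by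
      congr 1
      push_cast
      ring
    rw [h1, hx.step, ih]

theorem END_mem_of_le (hx : Tower A x) {L : IntermediateField ℂ Ω} {n m : ℤ} (hnm : n ≤ m)
    (h : x m ∈ L) : x n ∈ L := by
  have h1 : Cx x m ≤ L := by
    rw [Cx, adjoin_simple_le_iff]
    exact h
  exact h1 (hx.le' hnm (mem_adjoin_simple_self ℂ _))

/-- The index `k(m)`. -/
theorem END_exists_k (hPT : PTFacts Ω) (hA : 2 ≤ rdeg A) (hx : Tower A x) (hy : Tower B y)
    (h0 : x 0 = y 0) (m : ℕ) : ∃ k : ℕ, x k ∈ Cx y m ∧ x ((k : ℤ) + 1) ∉ Cx y m := by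
  by_contra hcon
  push Not at hcon
  have hall : ∀ k : ℕ, x k ∈ Cx y m := by
    intro k
    induction k with
    | zero =>
      rw [Nat.cast_zero, h0]
      exact hy.le' (by positivity) (mem_adjoin_simple_self ℂ _)
    | succ k ih => exact_mod_cast hcon k ih
  have hbound : ∀ k : ℕ, rdeg A ^ k ≤ (Cx x 0).relfinrank (Cx y m) := by
    intro k
    have h1 : Cx x k ≤ Cx y m := by
      rw [Cx, adjoin_simple_le_iff]
      exact hall k
    have h2 : Cx x 0 ≤ Cx x k := hx.le' (by positivity)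
    have h3 := IntermediateField.relfinrank_mul_relfinrank h2 h1
    have h4 := hx.relfinrank_eq (by omega : 1 ≤ rdeg A) 0 k
    rw [zero_add] at h4
    have h5 := hPT.relfinrank_pos (hx.ff k) (hy.ff m) h1
    rw [← h3, h4]
    exact Nat.le_mul_of_pos_right _ h5
  have h6 := hbound ((Cx x 0).relfinrank (Cx y m))
  have h7 : (Cx x 0).relfinrank (Cx y m) < rdeg A ^ ((Cx x 0).relfinrank (Cx y m)) :=
    Nat.lt_pow_self (by omega)
  omega

theorem common_iterate (hPT : PTFacts Ω) (hChain : ChainLemma) (hA : 2 ≤ rdeg A) (hB : 2 ≤ rdeg B)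
    (hS : ¬ SpecialIn Ω A) (hCB : ClaimB Ω A) (hx : Tower A x) (hy : Tower B y) (h0 : x 0 = y 0)
    (hc : ∀ n m : ℕ, 0 ≤ chi (Cx x n ⊔ Cx y m)) :
    ∃ k l, 1 ≤ k ∧ 1 ≤ l ∧ iter A k = iter B l := by
  have hA1 : 1 ≤ rdeg A := by omega
  have hB1 : 1 ≤ rdeg B := by omega
  obtain ⟨M, hM⟩ := hCB
  choose k hk hk' using END_exists_k hPT hA hx hy h0
  -- Claim B
  have hMk : ∀ m : ℕ, (Cx x (k m)).relfinrank (Cx y m) ≤ M := by
    intro m
    have h1 := hM (fun n => x (n + k m)) (hx.shift (k m)) (Cx y m) (hy.ff m) (by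
      simp only [zero_add]
      exact hk m) (by
      intro n
      have h2 := hc (n + k m) m
      rw [sup_comm]
      have h3 : Cx (fun n => x (n + k m)) n = Cx x (n + k m : ℕ) := by
        simp only [Cx, Nat.cast_add]
      rw [h3]
      exact h2) (by
      have h4 := hk' m
      rw [add_comm] at h4
      exact h4)
    have h3 : Cx (fun n => x (n + k m)) 0 = Cx x (k m) := by
      change ℂ⟮x (0 + k m)⟯ = ℂ⟮x (k m)⟯
      rw [zero_add]
    rwa [h3] at h1
  -- the maps `V m`
  have hV : ∀ m : ℕ, ∃ Q : RatFunc ℂ, x (k m) = ev Q (y m) := fun m =>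
    exists_ev_of_mem (hy.trans m) (hk m)
  choose V hV using hV
  have hVpos : ∀ m, 1 ≤ rdeg (V m) := by
    intro m
    rw [rdeg_pos_iff]
    intro c hcon
    have h1 := hV m
    rw [hcon] at h1
    have h2 : ev (RatFunc.C c) (y m) = algebraMap ℂ Ω c := RatFunc.eval_C (algebraMap ℂ Ω) _
    rw [h2] at h1
    exact hx.trans (k m) (h1 ▸ isAlgebraic_algebraMap c)
  have hVle : ∀ m, rdeg (V m) ≤ M := by
    intro m
    have h1 := relfinrank_ev (hy.trans m) (hVpos m)
    rw [← hV m] at h1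
    rw [← h1]
    exact hMk m
  have hkmono : ∀ m, k m ≤ k (m + 1) := by
    intro m
    by_contra hlt
    push Not at hlt
    apply hk' (m + 1)
    have h1 : x ((k (m + 1) : ℤ) + 1) ∈ Cx y m := by
      refine END_mem_of_le hx ?_ (hk m)
      exact_mod_cast hlt
    exact hy.le' (by push_cast; omega) h1
  have hstep : ∀ m, comp (V m) B = comp (iter A (k (m + 1) - k m)) (V (m + 1)) := by
    intro m
    have ht := hy.trans (m + 1 : ℕ)
    refine ev_injective ht ?_
    rw [ev_comp ht hB1, ev_comp ht (hVpos _), ← hV (m + 1)]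
    have h1 : ev B (y (m + 1 : ℕ)) = y m := by
      have := hy.step m
      exact_mod_cast this
    rw [h1, ← hV m, ev_iter (hx.trans _) hA1]
    have h2 := hx.END_iterate (k (m + 1) - k m) (k m)
    rw [← h2]
    congr 2
    have := hkmono m
    omega
  have hW : ∀ m, comp (iter A (k m)) (V m) = iter B m := by
    intro m
    have ht := hy.trans m
    refine ev_injective ht ?_
    rw [ev_comp ht (hVpos _), ← hV m, ev_iter (hx.trans _) hA1, ev_iter ht hB1]
    have h1 := hx.END_iterate (k m) 0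
    have h2 := hy.END_iterate m 0
    rw [zero_add] at h1 h2
    rw [h1, h2, h0]
  rcases hChain A B hA hB V (fun m => k (m + 1) - k m) M hVpos hVle hstep with
    ⟨m, m', hmm, hVV⟩ | hpow
  · -- two of the `V m` coincide
    have hkm : k m ≤ k m' := monotone_nat_of_le_succ hkmono hmm.le
    have h1 : iter A (k m') = comp (iter A (k m' - k m)) (iter A (k m)) := by
      rw [← iter_add hA1, Nat.sub_add_cancel hkm]
    have h2 : iter B m' = comp (iter B (m' - m)) (iter B m) := by
      rw [← iter_add hB1, Nat.sub_add_cancel hmm.le]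
    have h3 : comp (iter B (m' - m)) (iter B m) = comp (iter A (k m' - k m)) (iter B m) := by
      rw [← h2, ← hW m', ← hVV, h1, comp_assoc (hVpos m), hW m]
    have h4 := comp_right_cancel (END_rdeg_iter_pos hB1 m) h3
    refine ⟨k m' - k m, m' - m, ?_, by omega, h4.symm⟩
    by_contra hcon
    have h5 : k m' - k m = 0 := by omega
    rw [h5] at h4
    have h6 := congrArg rdeg h4
    rw [rdeg_iter, rdeg_iter, pow_zero] at h6
    have h7 : 1 < rdeg B ^ (m' - m) := Nat.one_lt_pow (by omega) (by omega)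
    omega
  · -- `B` is a power map
    exfalso
    apply hS
    right
    left
    obtain ⟨a, b, hab, hpair⟩ := END_pair_of_isPow hPT (hx.trans 0) hB hpow
    -- some `k m` is at least two
    obtain ⟨m, hm⟩ : ∃ m, 2 ≤ k m := by
      by_contra hcon
      push Not at hcon
      have hb : ∀ m : ℕ, rdeg B ^ m ≤ rdeg A * M := by
        intro m
        have h1 := hW m
        have h2 := congrArg rdeg h1
        rw [rdeg_comp, rdeg_iter, rdeg_iter] at h2
        rw [← h2]
        have h3 : rdeg A ^ k m ≤ rdeg A := by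
          calc rdeg A ^ k m ≤ rdeg A ^ 1 := Nat.pow_le_pow_right hA1 (by have := hcon m; omega)
            _ = rdeg A := pow_one _
        exact Nat.mul_le_mul h3 (hVle m)
      have h4 := hb (rdeg A * M)
      have h5 : rdeg A * M < rdeg B ^ (rdeg A * M) := Nat.lt_pow_self (by omega)
      omega
    have h1 : iter A (k m) = comp (iter A 2) (iter A (k m - 2)) := by
      rw [← iter_add hA1]
      congr 1
      omega
    set W := comp (iter A (k m - 2)) (V m) with hWdef
    have hWpos : 1 ≤ rdeg W := by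
      rw [hWdef, rdeg_comp]
      exact Nat.one_le_iff_ne_zero.2 (Nat.mul_ne_zero
        (by have := END_rdeg_iter_pos hA1 (k m - 2); omega) (by have := hVpos m; omega))
    have h2 : iter B m = comp (iter A 2) W := by
      rw [hWdef, ← comp_assoc (hVpos m), ← h1, hW m]
    refine END_isPow_of_crit2 hPT hA (a := a) (b := b) ?_
    intro q hq
    obtain ⟨z, rfl⟩ := pmap_surjective hPT hWpos q
    rw [← pmap_comp hPT hWpos, ← h2]
    apply END_crit_iter hPT hB hab hpair
    rw [h2, locDeg_comp hPT (END_rdeg_iter_pos hA1 2) hWpos]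
    intro h3
    exact hq (Nat.eq_one_of_mul_eq_one_right h3)

end Pool.Agent.Helper63.Pak
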